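import Pool.Agent.Q269.SX.StR

set_option autoImplicit false
set_option linter.all false

open scoped Classical
open Finset Polynomial

namespace Pool.Agent.Q299.SX

open Pool.Agent.Q269.SX
open Pool.Agent.Q269.GR (F2 Dn pr)
open Pool.Agent.Y164.HG (Geo Del Tau QQ)

theorem t_SLN (h1 : S_NSL) (h2 : S_FXN) (h3 : S_NKN) (h4 : S_SMN) (h5 : Pool.Agent.Q269.GJ.S_HYM) : S_SLN := by
  intro k k' _ _ _ _ _ n a N H H' hE m hodd D hD
  obtain ⟨-, -, h5c⟩ := h5 k k' n a N H
  have hD' := h5c m D hD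
  have e1 := h1 k n a N H m hodd D hD
  have e2 := h1 k' n (Pool.Agent.Q269.GJ.am k' a) N H' m hodd _ hD'
  have e3 := h2 k k' n a N H H' hE m D hD
  have e4 := h3 k k' n a N H H' hE m D hD
  have e5 := h4 k k' H.hk H.hm hE.odd n a H.del_ne m D hD
  rw [e3, e5, e1, e2] at e4
  have h2p : 0 < 2 ^ (n - 1) := by positivity
  have : kD H' (D.map (algebraMap k k')) * 2 ^ (n - 1) =
      kD H D * 2 ^ sjN a (Module.finrank k k') D * 2 ^ (n - 1) := by
    rw [e4]; ring
  exact Nat.eq_of_mul_eq_mul_right h2p this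

end Pool.Agent.Q299.SX
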