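import Pool.Agent.Q269.SX.StX

set_option autoImplicit false
set_option linter.all false

open scoped Classical
open Finset Polynomial

namespace Pool.Agent.Q299.SX

open Pool.Agent.Q269.SX
open Pool.Agent.Q269.SL (BoundedBy)
open Pool.Agent.Y713.Jac (J Cochain IsCocycle IsLocallyTrivial IsCoboundary mapJ)

section
variable {K : Type} [Field K] (F : K[X])

theorem cb_one : IsCoboundary 2 F (fun _ => 1) :=
  ⟨1, fun σ => by rw [map_one, div_one]⟩

theorem cb_mul {f g : Cochain 2 F} (hf : IsCoboundary 2 F f) (hg : IsCoboundary 2 F g) :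
    IsCoboundary 2 F (fun σ => f σ * g σ) := by
  obtain ⟨P, hP⟩ := hf
  obtain ⟨Q, hQ⟩ := hg
  refine ⟨P * Q, fun σ => ?_⟩
  show f σ * g σ = _
  rw [map_mul, hP σ, hQ σ, div_mul_div_comm]

theorem cb_inv {f : Cochain 2 F} (hf : IsCoboundary 2 F f) :
    IsCoboundary 2 F (fun σ => (f σ)⁻¹) := by
  obtain ⟨P, hP⟩ := hf
  refine ⟨P⁻¹, fun σ => ?_⟩
  show (f σ)⁻¹ = _
  rw [map_inv, hP σ, inv_div_inv, inv_div]

end

theorem crd_fin {X : Type} {M : ℕ} (h : ∀ A : ℕ, ∀ f : Fin A → X, Function.Injective f → A ≤ M) : Finite X := by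
  by_contra hX
  rw [not_finite_iff_infinite] at hX
  have := h (M + 1) (fun i => Infinite.natEmbedding X i.1)
    (fun i j hij => Fin.ext ((Infinite.natEmbedding X).injective hij))
  omega

theorem t_CRD : S_CRD := by
  intro K _ F R _ _ _ _ M₀ h h0
  set r : Sh2 F R → Sh2 F R → Prop := fun c c' => IsCoboundary 2 F (fun σ => c.1 σ / c'.1 σ) with hr
  have hrefl : ∀ c, r c c := by
    intro c
    have : (fun σ => c.1 σ / c.1 σ) = fun _ => (1 : J 2 F (SeparableClosure K)) := by
      funext σ; exact div_self' _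
    show IsCoboundary 2 F _
    rw [this]; exact cb_one F
  have hsymm : ∀ {c c'}, r c c' → r c' c := by
    intro c c' hc
    have := cb_inv F hc
    have e : (fun σ => (c.1 σ / c'.1 σ)⁻¹) = fun σ => c'.1 σ / c.1 σ := by
      funext σ; exact inv_div _ _
    show IsCoboundary 2 F _
    rw [← e]; exact this
  have htrans : ∀ {c c' c''}, r c c' → r c' c'' → r c c'' := by
    intro c c' c'' hc hc'
    have := cb_mul F hc hc'
    have e : (fun σ => (c.1 σ / c'.1 σ) * (c'.1 σ / c''.1 σ)) = fun σ => c.1 σ / c''.1 σ := by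
      funext σ; exact div_mul_div_cancel _ _ _
    show IsCoboundary 2 F _
    rw [← e]; exact this
  have heq : Equivalence r := ⟨hrefl, hsymm, htrans⟩
  have hq : ∀ c c' : Sh2 F R, Quot.mk r c = Quot.mk r c' ↔ r c c' := by
    intro c c'
    rw [Quot.eq, heq.eqvGen_iff]
  have hmk : ∀ x y : J 2 F K, (QuotientGroup.mk x : J 2 F K ⧸ tsub F) = QuotientGroup.mk y ↔
      ∃ T z : J 2 F K, T ^ 2 = 1 ∧ y = x * T * z ^ 2 := by
    intro x y
    rw [QuotientGroup.eq]
    constructor
    · rintro ⟨t, z, ht, he⟩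
      refine ⟨t, z, ht, ?_⟩
      rw [mul_assoc, ← he, mul_inv_cancel_left]
    · rintro ⟨t, z, ht, he⟩
      refine ⟨t, z, ht, ?_⟩
      rw [he, mul_assoc, inv_mul_cancel_left]
  have hB := (h M₀).2 le_rfl
  -- injections
  have key : ∀ (A B : ℕ) (f : Fin A → J 2 F K ⧸ tsub F) (g : Fin B → Quot r), Function.Injective f →
      Function.Injective g → A * B ≤ M₀ := by
    intro A B f g hf hg
    refine hB A B (fun i => Quotient.out (f i)) (fun j => (Quot.out (g j)).1) ?_ ?_ ?_ ?_ ?_
    · intro i j hij hex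
      apply hij
      apply hf
      have := (hmk (Quotient.out (f j)) (Quotient.out (f i))).2 hex
      rw [QuotientGroup.out_eq', QuotientGroup.out_eq'] at this
      exact this.symm
    · intro j; exact (Quot.out (g j)).2.1
    · intro j; exact (Quot.out (g j)).2.2.1
    · intro j; exact (Quot.out (g j)).2.2.2
    · intro i j hij hc
      apply hij
      apply hg
      have := (hq _ _).2 hc
      rwa [Quot.out_eq, Quot.out_eq] at this
  have hne : Nonempty (Sh2 F R) := by
    by_contra hn
    have : BoundedBy F R 0 := by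
      intro A B x c h1 h2 h3 h4 h5
      rcases Nat.eq_zero_or_pos B with hB0 | hBp
      · rw [hB0, mul_zero]
      · exact absurd ⟨⟨c ⟨0, hBp⟩, h2 _, h3 _, h4 _⟩⟩ hn
    have := (h 0).1 this
    omega
  obtain ⟨c₀⟩ := hne
  have hf1 : Finite (J 2 F K ⧸ tsub F) := by
    apply crd_fin (M := M₀)
    intro A f hf
    have := key A 1 f (fun _ => Quot.mk r c₀) hf (fun i j _ => Subsingleton.elim i j)
    simpa using this
  have hf2 : Finite (Quot r) := by
    apply crd_fin (M := M₀)
    intro B g hg
    have := key 1 B (fun _ => QuotientGroup.mk 1) g (fun i j _ => Subsingleton.elim i j) hg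
    simpa using this
  have hi : (tsub F).index = Nat.card (J 2 F K ⧸ tsub F) := rfl
  have hs : nSh F R = Nat.card (Quot r) := rfl
  have hle : (tsub F).index * nSh F R ≤ M₀ := by
    rw [hi, hs]
    exact key _ _ (Finite.equivFin _).symm (Finite.equivFin _).symm (Equiv.injective _) (Equiv.injective _)
  have hge : M₀ ≤ (tsub F).index * nSh F R := by
    apply (h _).1
    intro A B x c h1 h2 h3 h4 h5
    have hA : A ≤ (tsub F).index := by
      have := Nat.card_le_card_of_injective (fun i : Fin A => (QuotientGroup.mk (x i) : J 2 F K ⧸ tsub F)) (by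
        intro i j hij
        by_contra hne
        exact h1 j i (Ne.symm hne) ((hmk _ _).1 hij))
      rwa [Nat.card_fin] at this
    have hBn : B ≤ nSh F R := by
      have := Nat.card_le_card_of_injective (fun i : Fin B => Quot.mk r ⟨c i, h2 i, h3 i, h4 i⟩) (by
        intro i j hij
        by_contra hne
        exact h5 i j hne ((hq _ _).1 hij))
      rwa [Nat.card_fin] at this
    exact Nat.mul_le_mul hA hBn
  have hM : (tsub F).index * nSh F R = M₀ := le_antisymm hle hge
  refine ⟨hM, ?_, ?_⟩
  · intro h'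
    rw [h', zero_mul] at hM
    omega
  · intro h'
    rw [h', mul_zero] at hM
    omega

end Pool.Agent.Q299.SX
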